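import Mathlib

/-!
# Algebraic entropy of continuous endomorphisms of `K^ℕ`: definitions of the statement
-/

set_option autoImplicit false

namespace Pool.Agent.Helper62.EF

open Filter

/-- the partial trajectory `T_n(φ, F) = F + φ(F) + ... + φ^(n-1)(F)` (the subgroup generated by
these `n` subgroups) -/
def trj {G : Type} [AddCommGroup G] (φ : G →+ G) (F : AddSubgroup G) (n : ℕ) : AddSubgroup G :=
  AddSubgroup.closure {y | ∃ i < n, ∃ x ∈ F, φ^[i] x = y}

/-- the algebraic entropy `sup_F lim_n log |T_n(φ, F)| / n`, `F` a finite subgroup, in `[0, ∞]` -/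
noncomputable def ent {G : Type} [AddCommGroup G] (φ : G →+ G) : ENNReal :=
  ⨆ (F : AddSubgroup G) (_ : Finite F),
    limsup (fun n : ℕ => ENNReal.ofReal (Real.log (Nat.card (trj φ F n)) / n)) atTop

end Pool.Agent.Helper62.EF
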