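import Pool.Agent.Helper62.EF.Defs

/-!
# Sheet EF: every continuous endomorphism of `K^ℕ` has entropy `0` or `∞` (MP_e13f3c_al)
-/

set_option autoImplicit false

namespace Pool.Agent.Helper62.EF

open Filter

/-- `x` has a finite orbit -/
def FO {G : Type} [AddCommGroup G] (φ : G →+ G) (x : G) : Prop :=
  (Set.range fun i : ℕ => φ^[i] x).Finite

/-- the subgroup of the elements with finite orbit -/
def tt {G : Type} [AddCommGroup G] (φ : G →+ G) : AddSubgroup G where
  carrier := {x | FO φ x}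
  zero_mem' := by
    refine (Set.finite_singleton (0 : G)).subset ?_
    rintro _ ⟨i, rfl⟩
    simp [iterate_map_zero]
  add_mem' := by
    intro x y hx hy
    refine (Set.Finite.image2 (fun a b => a + b) hx hy).subset ?_
    rintro _ ⟨i, rfl⟩
    exact ⟨φ^[i] x, ⟨i, rfl⟩, φ^[i] y, ⟨i, rfl⟩, (iterate_map_add φ i x y).symm⟩
  neg_mem' := by
    intro x hx
    refine (Set.Finite.image (fun a => -a) hx).subset ?_
    rintro _ ⟨i, rfl⟩
    exact ⟨φ^[i] x, ⟨i, rfl⟩, (iterate_map_neg φ i x).symm⟩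

/-- `c(φ) x` for a polynomial `c` with integer coefficients -/
def ev {G : Type} [AddCommGroup G] (φ : G →+ G) (n : ℕ) (c : ℕ → ℤ) (x : G) : G :=
  ∑ i ∈ Finset.range n, c i • φ^[i] x

/-- independent modulo `tt φ` and `p` -/
def Ind {G : Type} [AddCommGroup G] (φ : G →+ G) (p N : ℕ) (x : Fin N → G) : Prop :=
  (∀ j, p • x j ∈ tt φ) ∧ ∀ (n : ℕ) (c : Fin N → ℕ → ℤ),
    (∑ j, ev φ n (c j) (x j)) ∈ tt φ → ∀ j, ∀ i < n, (p : ℤ) ∣ c j i

/-- TW: let `y = φ^b x - φ^a x` have a finite orbit: `φ^c y = φ^d y`, `c < d`. Then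
`φ^(b+d) x = φ^(a+d) x + φ^(b+c) x - φ^(a+c) x`: the subgroup generated by `φ^i x`, `i < b + d`, is
finite and `φ`-invariant. (Or: `x`'s orbit lies in the finite subgroup.) -/
def ST_TW : Prop := ∀ (G : Type) [AddCommGroup G] (φ : G →+ G) (m : ℕ), 0 < m →
  (∀ x : G, m • x = 0) → ∀ (x : G) (a b : ℕ), a < b → φ^[b] x - φ^[a] x ∈ tt φ → x ∈ tt φ

/-- PR: strong induction on `m`: `m = p m'`; if `A[p]` is countable, the image of `x ↦ m' x` is
countable, so the kernel `A[m']` is uncountable. -/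
def ST_PR : Prop := ∀ (A : Type) [AddCommGroup A] (m : ℕ), 0 < m → (∀ x : A, m • x = 0) →
  ¬ Countable A → ∃ p : ℕ, p.Prime ∧ ¬ Set.Countable {x : A | p • x = 0}

/-- TF (TW): divide by the highest coefficient which `p` does not divide (higher terms are in
`tt φ`): `φ^k z` is modulo `tt φ` a combination of lower powers, so `z` has a finite orbit modulo
`tt φ` (coefficients modulo `p`), so `φ^b z - φ^a z ∈ tt φ`; TW. -/
def ST_TF : Prop := ∀ (G : Type) [AddCommGroup G] (φ : G →+ G) (m : ℕ), 0 < m →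
  (∀ x : G, m • x = 0) → ∀ (p : ℕ), p.Prime → ∀ (z : G) (n : ℕ) (c : ℕ → ℤ), p • z ∈ tt φ →
  ev φ n c z ∈ tt φ → (∃ i < n, ¬ (p : ℤ) ∣ c i) → z ∈ tt φ

/-- EX (TF): induction on `N`: `x 0, ..., x (N-1)` independent. If `x` with `p x ∈ tt φ` is not a
possible `x N`, there are `n`, `c` (`N + 1` polynomials, countably many) with
`∑ c_j(φ) x_j + g(φ) x ∈ tt φ` and `g` not zero modulo `p`; for given `n`, `c`, `g` all such `x` are
equal modulo `tt φ` (TF). So only countably many classes of `{q | p q = 0}` are excluded. -/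
def ST_EX : Prop := ∀ (G : Type) [AddCommGroup G] (φ : G →+ G) (m : ℕ), 0 < m →
  (∀ x : G, m • x = 0) → ∀ (p : ℕ), p.Prime →
  ¬ Set.Countable {q : G ⧸ tt φ | p • q = 0} → ∀ N : ℕ, ∃ x : Fin N → G, Ind φ p N x

/-- CT: `F` generated by the `x j`; the sums `∑ j, ∑ i < n, c j i • φ^i (x j)`,
`0 ≤ c j i < p`, are in `trj φ F n` and different modulo `tt φ`. -/
def ST_CT : Prop := ∀ (G : Type) [AddCommGroup G] (φ : G →+ G) (m : ℕ), 0 < m →
  (∀ x : G, m • x = 0) → ∀ (p : ℕ), p.Prime → ∀ (N : ℕ) (x : Fin N → G), Ind φ p N x →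
  ∃ F : AddSubgroup G, Finite F ∧ ∀ n, 2 ^ (n * N) ≤ Nat.card (trj φ F n)

/-- ZE: the closure of the union of the orbits of the elements of `F` is a finite subgroup which
contains all `trj φ F n`. -/
def ST_ZE : Prop := ∀ (G : Type) [AddCommGroup G] (φ : G →+ G) (m : ℕ), 0 < m →
  (∀ x : G, m • x = 0) → (∀ x : G, x ∈ tt φ) → ∀ F : AddSubgroup G, Finite F →
  ∃ B : ℕ, ∀ n, Nat.card (trj φ F n) ≤ B

/-- BA (TW): `tt φ` is the union of the closed subgroups `{x | φ^b x = φ^a x}`, `a < b`; `G` is the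
union of countably many translates of them; by Baire one of them is open, so of finite index, so
`{φ^b x - φ^a x}` is finite and `φ`-invariant, its elements have finite orbits; TW. -/
def ST_BA : Prop := ∀ (G : Type) [AddCommGroup G] [TopologicalSpace G] [IsTopologicalAddGroup G]
  [CompactSpace G] [T2Space G] (φ : G →+ G) (m : ℕ), Continuous φ → 0 < m →
  (∀ x : G, m • x = 0) → Countable (G ⧸ tt φ) → ∀ x : G, x ∈ tt φ

/-- MAIN (PR EX CT ZE BA): `m = card K` (or `Monoid.exponent`), `G = ℕ → K` -/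
def ST_MAIN : Prop := ∀ (K : Type) [AddCommGroup K] [Finite K] [TopologicalSpace K]
  [DiscreteTopology K] (φ : (ℕ → K) →+ (ℕ → K)), Continuous φ → ent φ = 0 ∨ ent φ = ⊤

end Pool.Agent.Helper62.EF
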